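import Mathlib

set_option autoImplicit false

/-!
# Configurations of points in `ℙ³` and the attached spaces of matrices of bounded rank
-/

namespace Pool.Agent.H67.FS

open Matrix

universe u

section Config

variable {F : Type u} [Field F] {ι : Type}

/-- three points of a configuration `e : ι → F⁴` are collinear -/
def Col (e : ι → Fin 4 → F) (a b c : ι) : Prop := ¬ LinearIndependent F ![e a, e b, e c]

/-- the number of ordered pairs `(b,c)` such that `a, b, c` are distinct and collinear -/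
noncomputable def deg (e : ι → Fin 4 → F) (a : ι) : ℕ :=
  Nat.card {p : ι × ι // p.1 ≠ p.2 ∧ p.1 ≠ a ∧ p.2 ≠ a ∧ Col e a p.1 p.2}

/-- outside of every set of at most three points there is a 'generic pair' `g, h`:
the line `gh` is skew to all lines `ab` with `a, b ∉ {g, h}`. -/
def GP (e : ι → Fin 4 → F) : Prop :=
  ∀ S : Finset ι, S.card ≤ 3 → ∃ g h : ι, g ≠ h ∧ g ∉ S ∧ h ∉ S ∧
    ∀ a b : ι, a ≠ b → a ≠ g → a ≠ h → b ≠ g → b ≠ h →
      LinearIndependent F ![e g, e h, e a, e b]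

/-- different points of the configuration are not proportional -/
def PL (e : ι → Fin 4 → F) : Prop := ∀ a b : ι, a ≠ b → LinearIndependent F ![e a, e b]

/-- multiplication gadget: a complete quadrangle `p q r s` which forces `m = x y`
for the points with coordinates `0 = o, 1 = i, ∞ = w, x, y, m` of a line -/
def MulG (e : ι → Fin 4 → F) (o i w x y m : ι) : Prop :=
  ∃ p q r s : ι, LinearIndependent F ![e p, e q, e r] ∧ p ≠ s ∧ q ≠ s ∧ r ≠ s ∧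
    (∀ z ∈ ({o, i, w, x, y, m} : Set ι), z ≠ p ∧ z ≠ q ∧ z ≠ r ∧ z ≠ s) ∧
    Col e p q o ∧ Col e r s w ∧ Col e p r i ∧ Col e q s m ∧ Col e p s x ∧ Col e q r y

/-- addition gadget: a complete quadrangle which forces `x + y = 1` -/
def AddG (e : ι → Fin 4 → F) (o i w x y : ι) : Prop :=
  ∃ p q r s : ι, LinearIndependent F ![e p, e q, e r] ∧ p ≠ s ∧ q ≠ s ∧ r ≠ s ∧
    (∀ z ∈ ({o, i, w, x, y} : Set ι), z ≠ p ∧ z ≠ q ∧ z ≠ r ∧ z ≠ s) ∧
    Col e p q w ∧ Col e r s w ∧ Col e p r o ∧ Col e q s i ∧ Col e p s x ∧ Col e q r y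

/-- the coordinate (cross ratio) of the point `p` of the line `o w` for which `o, i, w` have the
coordinates `0, 1, ∞`, computed from the affine coordinate `e · 1 / e · 0` with `e · 0 = 1` -/
def cr (e : ι → Fin 4 → F) (o i w p : ι) : F :=
  ((e w 1 - e i 1) * (e p 1 - e o 1)) / ((e i 1 - e o 1) * (e w 1 - e p 1))

/-- the spans of one, two, three points -/
def E1 (e : ι → Fin 4 → F) (a : ι) : Submodule F (Fin 4 → F) := Submodule.span F {e a}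
def E2 (e : ι → Fin 4 → F) (a b : ι) : Submodule F (Fin 4 → F) := Submodule.span F {e a, e b}
def E3 (e : ι → Fin 4 → F) (a b c : ι) : Submodule F (Fin 4 → F) :=
  Submodule.span F {e a, e b, e c}

lemma E1_le_left (e : ι → Fin 4 → F) (a b : ι) : E1 e a ≤ E2 e a b :=
  Submodule.span_mono (by simp)
lemma E1_le_right (e : ι → Fin 4 → F) (a b : ι) : E1 e b ≤ E2 e a b :=
  Submodule.span_mono (by simp)
lemma E2_le_ab (e : ι → Fin 4 → F) (a b c : ι) : E2 e a b ≤ E3 e a b c :=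
  Submodule.span_mono (by intro x; simp; tauto)
lemma E2_le_ac (e : ι → Fin 4 → F) (a b c : ι) : E2 e a c ≤ E3 e a b c :=
  Submodule.span_mono (by intro x; simp; tauto)
lemma E2_le_bc (e : ι → Fin 4 → F) (a b c : ι) : E2 e b c ≤ E3 e a b c :=
  Submodule.span_mono (by intro x; simp; tauto)

end Config

/-- pairs `a < b` and triples `a < b < c` -/
abbrev Prs (ι : Type) [LinearOrder ι] := {p : ι × ι // p.1 < p.2}
abbrev Trs (ι : Type) [LinearOrder ι] := {t : ι × ι × ι // t.1 < t.2.1 ∧ t.2.1 < t.2.2}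

section Complex

variable {F : Type u} [Field F] {ι : Type} [LinearOrder ι]

/-- the cochain spaces -/
abbrev C1 (e : ι → Fin 4 → F) := ∀ a : ι, (Fin 4 → F) ⧸ E1 e a
abbrev C2 (e : ι → Fin 4 → F) := ∀ p : Prs ι, (Fin 4 → F) ⧸ E2 e p.1.1 p.1.2
abbrev C3 (e : ι → Fin 4 → F) := ∀ t : Trs ι, (Fin 4 → F) ⧸ E3 e t.1.1 t.1.2.1 t.1.2.2

/-- the restriction maps -/
def r1l (e : ι → Fin 4 → F) (p : Prs ι) : C1 e →ₗ[F] (Fin 4 → F) ⧸ E2 e p.1.1 p.1.2 :=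
  (Submodule.factor (E1_le_left e p.1.1 p.1.2)).comp (LinearMap.proj p.1.1)
def r1r (e : ι → Fin 4 → F) (p : Prs ι) : C1 e →ₗ[F] (Fin 4 → F) ⧸ E2 e p.1.1 p.1.2 :=
  (Submodule.factor (E1_le_right e p.1.1 p.1.2)).comp (LinearMap.proj p.1.2)
def r2ab (e : ι → Fin 4 → F) (t : Trs ι) :
    C2 e →ₗ[F] (Fin 4 → F) ⧸ E3 e t.1.1 t.1.2.1 t.1.2.2 :=
  (Submodule.factor (E2_le_ab e t.1.1 t.1.2.1 t.1.2.2)).comp
    (LinearMap.proj (⟨(t.1.1, t.1.2.1), t.2.1⟩ : Prs ι))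
def r2ac (e : ι → Fin 4 → F) (t : Trs ι) :
    C2 e →ₗ[F] (Fin 4 → F) ⧸ E3 e t.1.1 t.1.2.1 t.1.2.2 :=
  (Submodule.factor (E2_le_ac e t.1.1 t.1.2.1 t.1.2.2)).comp
    (LinearMap.proj (⟨(t.1.1, t.1.2.2), t.2.1.trans t.2.2⟩ : Prs ι))
def r2bc (e : ι → Fin 4 → F) (t : Trs ι) :
    C2 e →ₗ[F] (Fin 4 → F) ⧸ E3 e t.1.1 t.1.2.1 t.1.2.2 :=
  (Submodule.factor (E2_le_bc e t.1.1 t.1.2.1 t.1.2.2)).comp
    (LinearMap.proj (⟨(t.1.2.1, t.1.2.2), t.2.2⟩ : Prs ι))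

/-- the coboundary maps -/
def d0 (e : ι → Fin 4 → F) : (Fin 4 → F) →ₗ[F] C1 e :=
  LinearMap.pi fun a => (E1 e a).mkQ
def d1 (e : ι → Fin 4 → F) : C1 e →ₗ[F] C2 e :=
  LinearMap.pi fun p => r1r e p - r1l e p
def d2 (e : ι → Fin 4 → F) : C2 e →ₗ[F] C3 e :=
  LinearMap.pi fun t => r2bc e t - r2ac e t + r2ab e t

/-- the multiplications by the `i`-th basis vector -/
def M0 (e : ι → Fin 4 → F) (i : ι) : (Fin 4 → F) →ₗ[F] C1 e :=
  LinearMap.pi fun a => if i = a then (E1 e a).mkQ else 0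
def M1 (e : ι → Fin 4 → F) (i : ι) : C1 e →ₗ[F] C2 e :=
  LinearMap.pi fun p => (if i = p.1.1 then r1r e p else 0) - (if i = p.1.2 then r1l e p else 0)
def M2 (e : ι → Fin 4 → F) (i : ι) : C2 e →ₗ[F] C3 e :=
  LinearMap.pi fun t => (if i = t.1.1 then r2bc e t else 0) - (if i = t.1.2.1 then r2ac e t else 0)
    + (if i = t.1.2.2 then r2ab e t else 0)

end Complex

/-- The properties (in matrix form) of the three families of matrices attached to a configuration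
`e` over a field `κ` containing the (infinite) field `K`. -/
structure CfgCx (K : Type u) {κ : Type u} [Field K] [Field κ] [Algebra K κ] {ι n1 n2 n3 : Type}
    [Fintype ι] [LinearOrder ι] [Fintype n1] [Fintype n2] [Fintype n3]
    (e : ι → Fin 4 → κ) (A2 : ι → Matrix n3 n2 κ) (A1 : ι → Matrix n2 n1 κ)
    (F0 : ι → Matrix n1 (Fin 4) κ) : Prop where
  z1a : ∀ i, A1 i * F0 i = 0
  z1b : ∀ i j, A1 i * F0 j + A1 j * F0 i = 0
  z2a : ∀ i, A2 i * A1 i = 0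
  z2b : ∀ i j, A2 i * A1 j + A2 j * A1 i = 0
  tf1 : ∀ c : ι → ι → n2 → κ,
    (∀ x : ι → Kˣ, ∃ u : n1 → κ, (∑ i, algebraMap K κ (x i) • A1 i) *ᵥ u =
      ∑ i, ∑ j, algebraMap K κ (x i * x j) • c i j) →
    ∃ y : ι → n1 → κ, (∀ i, A1 i *ᵥ y i = c i i) ∧
      ∀ i j, i ≠ j → A1 i *ᵥ y j + A1 j *ᵥ y i = c i j + c j i
  tf2 : ∀ c : ι → ι → n3 → κ,
    (∀ x : ι → Kˣ, ∃ u : n2 → κ, (∑ i, algebraMap K κ (x i) • A2 i) *ᵥ u =
      ∑ i, ∑ j, algebraMap K κ (x i * x j) • c i j) →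
    ∃ y : ι → n2 → κ, (∀ i, A2 i *ᵥ y i = c i i) ∧
      ∀ i j, i ≠ j → A2 i *ᵥ y j + A2 j *ᵥ y i = c i j + c j i
  r2 : ∀ x : ι → Kˣ, (∑ i, algebraMap K κ (x i) • A2 i).rank +
    (∑ i, algebraMap K κ (x i) • A1 i).rank = Fintype.card n2
  b1 : LinearIndependent κ (fun q : ι × Fin 3 => F0 q.1 *ᵥ Pi.single q.2.succ 1)
  b1c : Fintype.card n1 = 3 * Fintype.card ι
  b1e : ∀ a, F0 a *ᵥ e a = 0
  b2 : ∀ a, LinearIndependent κ (fun q : {c : ι // c ≠ a} × Fin 2 =>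
    A1 a *ᵥ (F0 q.1 *ᵥ Pi.single q.2.succ.succ 1))
  b3 : Submodule.span κ (Set.range fun q : Trs ι × Fin 4 =>
    A2 q.1.1.1 *ᵥ (A1 q.1.1.2.1 *ᵥ (F0 q.1.1.2.2 *ᵥ Pi.single q.2 1))) = ⊤
  d3 : Fintype.card n3 = ∑ t : Trs ι, (4 - Module.finrank κ (E3 e t.1.1 t.1.2.1 t.1.2.2))

end Pool.Agent.H67.FS
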