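import Mathlib

set_option autoImplicit false

/-!
# Fano schemes of determinantal varieties (set-theoretic side), components, unirationality

Everything that the final statement of `MP_6f7589_ag` uses.
-/

namespace Pool.Agent.H67.FS

open MvPolynomial

universe u

/-- The Zariski topology of the affine space `σ → K`: the closed sets are the common zero sets of
sets of polynomials. -/
@[reducible] def zariski (K : Type u) [Field K] (σ : Type) : TopologicalSpace (σ → K) :=
  TopologicalSpace.ofClosed
    {S : Set (σ → K) | ∃ I : Set (MvPolynomial σ K), S = {x | ∀ f ∈ I, eval x f = 0}}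
    ⟨{1}, by ext x; simp⟩
    (by
      intro A hA
      refine ⟨{f | ∃ S ∈ A, ∀ x ∈ S, eval x f = 0}, ?_⟩
      ext x
      constructor
      · rintro h f ⟨S, hS, hf⟩
        exact hf x (h S hS)
      · intro h S hS
        obtain ⟨I, rfl⟩ := hA hS
        exact fun f hf => h f ⟨_, hS, fun y hy => hy f hf⟩)
    (by
      rintro _ ⟨I, rfl⟩ _ ⟨J, rfl⟩
      refine ⟨{h | ∃ f ∈ I, ∃ g ∈ J, h = f * g}, ?_⟩
      ext x
      simp only [Set.mem_union, Set.mem_ofPred_eq]
      constructor
      · rintro (h | h) _ ⟨f, hf, g, hg, rfl⟩
        · rw [map_mul, h f hf, zero_mul]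
        · rw [map_mul, h g hg, mul_zero]
      · intro h
        by_contra hc
        push Not at hc
        obtain ⟨⟨f, hf, hf0⟩, ⟨g, hg, hg0⟩⟩ := hc
        have := h (f * g) ⟨f, hf, g, hg, rfl⟩
        rw [map_mul] at this
        exact (mul_ne_zero hf0 hg0) this)

section Geometry

variable (K : Type u) [Field K] (m n k : ℕ)

/-- Linearly independent `(k+1)`-tuples of `m × n` matrices ('frames'). -/
def Frame : Type u :=
  {A : Fin (k + 1) → Matrix (Fin m) (Fin n) K // LinearIndependent K A}

/-- The space of frames carries the topology induced from the Zariski topology of the affine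
space of all `(k+1)`-tuples of `m × n` matrices. -/
instance : TopologicalSpace (Frame K m n k) :=
  TopologicalSpace.induced
    (fun A => fun s : Fin (k + 1) × Fin m × Fin n => A.1 s.1 s.2.1 s.2.2)
    (zariski K (Fin (k + 1) × Fin m × Fin n))

/-- The Grassmannian of `k`-dimensional projective linear subspaces of the projective space
`ℙ^(mn-1)` of `m × n` matrices, i.e. of `(k+1)`-dimensional subspaces of the space of matrices. -/
def Gr : Type u :=
  {Λ : Submodule K (Matrix (Fin m) (Fin n) K) // Module.finrank K Λ = k + 1}

/-- The span of a frame. -/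
def spanMap (A : Frame K m n k) : Gr K m n k :=
  ⟨Submodule.span K (Set.range A.1), by
    simpa using finrank_span_eq_card A.2⟩

/-- The Zariski topology of the Grassmannian: the quotient topology for the map from frames to
their spans. -/
instance : TopologicalSpace (Gr K m n k) :=
  TopologicalSpace.coinduced (spanMap K m n k) inferInstance

/-- The (points of the) Fano scheme `F_k(D^r_{m,n})`: the linear subspaces of projective dimension
`k` consisting of matrices of rank at most `r - 1`. -/
def Fano (r : ℕ) : Set (Gr K m n k) :=
  {Λ | ∀ M ∈ Λ.1, M.rank < r}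

/-- `Y` is an irreducible component of the Fano scheme. -/
def IsComponent (r : ℕ) (Y : Set (Gr K m n k)) : Prop :=
  Maximal (fun T : Set (Gr K m n k) => T ⊆ Fano K m n k r ∧ IsIrreducible T) Y

/-- The subspaces `span Q(t)`, for those `t ∈ K^N` for which `Q(t)` is a frame, where `Q` is a
`(k+1)`-tuple of matrices of polynomials in `N` variables.  Every rational map from a
projective (or affine) space of dimension `N` to the Grassmannian is of the form
`t ↦ span Q(t)`. -/
def image {N : ℕ} (Q : Fin (k + 1) → Matrix (Fin m) (Fin n) (MvPolynomial (Fin N) K)) :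
    Set (Gr K m n k) :=
  {Λ | ∃ (t : Fin N → K) (h : LinearIndependent K (fun l => (Q l).map (eval t))),
    Λ = spanMap K m n k ⟨fun l => (Q l).map (eval t), h⟩}

/-- `Y` is unirational: there is a dominant rational map from a projective space to `Y`. -/
def Unirational (Y : Set (Gr K m n k)) : Prop :=
  ∃ (N : ℕ) (Q : Fin (k + 1) → Matrix (Fin m) (Fin n) (MvPolynomial (Fin N) K)),
    (image K m n k Q).Nonempty ∧ image K m n k Q ⊆ Y ∧ Y ⊆ closure (image K m n k Q)

end Geometry

/-- the final statement -/
def FinalStatement : Prop :=
  ∀ (K : Type u) [Field K] [IsAlgClosed K], ∃ m n r k : ℕ, 1 ≤ r ∧ r ≤ m ∧ r ≤ n ∧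
    ∃ Y : Set (Gr K m n k), IsComponent K m n k r Y ∧ ¬ Unirational K m n k Y

end Pool.Agent.H67.FS
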