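import Mathlib
import Pool.Agent.H67.FS.Defs
import Pool.Agent.H67.FS.Statement

set_option autoImplicit false

/-!
# Targets of the modules (MP_6f7589_ag)
-/

namespace Pool.Agent.H67.FS

open Matrix IsLocalRing

universe u

/-! ## A. Elementary field theory and algebraic geometry -/

/-- MINOR: rank and minors -/
def T_MINOR : Prop :=
  ∀ (F : Type u) [Field F] (m n : Type) [Fintype m] [Fintype n] [DecidableEq m] [DecidableEq n]
    (M : Matrix m n F) (r : ℕ),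
    r ≤ M.rank ↔ ∃ (f : Fin r → m) (g : Fin r → n), (M.submatrix f g).det ≠ 0

/-- MAPFR: dimension of a span does not change under a field extension -/
def T_MAPFR : Prop :=
  ∀ (F F' : Type u) [Field F] [Field F'] (γ : F →+* F') (s n : Type) [Fintype s] [Fintype n]
    (v : s → n → F),
    Module.finrank F' (Submodule.span F' (Set.range fun i j => γ (v i j))) =
      Module.finrank F (Submodule.span F (Set.range v))

/-- DENSE: rank bound on the torus implies rank bound everywhere -/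
def T_DENSE : Prop :=
  ∀ (K κ : Type u) [Field K] [Infinite K] [Field κ] [Algebra K κ] (ι m n : Type) [Fintype ι]
    [Fintype m] [Fintype n] [DecidableEq m] [DecidableEq n] (A : ι → Matrix m n κ) (r : ℕ),
    (∀ x : ι → Kˣ, (∑ i, algebraMap K κ (x i) • A i).rank < r) →
      ∀ x : ι → K, (∑ i, algebraMap K κ (x i) • A i).rank < r

/-- FLT: the Fermat curve of degree `n ≥ 3` has no nonconstant points over a purely transcendental
extension -/
def T_FLT : Prop :=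
  ∀ (K : Type u) [Field K] [IsAlgClosed K] (τ : Type) [Fintype τ] (n : ℕ), 3 ≤ n → (n : K) ≠ 0 →
    ∀ X Y : FractionRing (MvPolynomial τ K), X ^ n + Y ^ n = 1 →
      X ∈ (algebraMap K (FractionRing (MvPolynomial τ K))).range

/-- XY: a generic point of a Fermat curve -/
def T_XY : Prop :=
  ∀ (K : Type u) [Field K] [IsAlgClosed K], ∃ (n : ℕ) (_ : n = 3 ∨ n = 4) (_ : (n : K) ≠ 0)
    (κ₁ : Type u) (_ : Field κ₁) (_ : Algebra K κ₁) (x y : κ₁),
    x ^ n + y ^ n = 1 ∧ x ∉ (algebraMap K κ₁).range ∧ IntermediateField.adjoin K {x, y} = ⊤ ∧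
    [0, 1, x, x ^ 2, x ^ n, y, y ^ 2, y ^ n].Nodup

/-- AG: for a 'generic point' `A` (over an extension `κ₁` of `K`) of the space of frames of
matrices of rank `< r`, there is a component of the Fano scheme containing it; if this component
is unirational then `A` is a specialisation of a point `A'` over a purely transcendental
extension. -/
def T_AG : Prop :=
  ∀ (K : Type u) [Field K] [IsAlgClosed K] (κ₁ : Type u) [Field κ₁] [Algebra K κ₁] (m n k r : ℕ)
    (A : Fin (k + 1) → Matrix (Fin m) (Fin n) κ₁), LinearIndependent κ₁ A →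
    (∀ x : Fin (k + 1) → K, (∑ l, algebraMap K κ₁ (x l) • A l).rank < r) →
    ∃ Y : Set (Gr K m n k), IsComponent K m n k r Y ∧
      (Unirational K m n k Y → ∃ (N : ℕ)
        (A' : Fin (k + 1) → Matrix (Fin m) (Fin n) (FractionRing (MvPolynomial (Fin N) K))),
        (∀ x : Fin (k + 1) → K, (∑ l, algebraMap K (FractionRing (MvPolynomial (Fin N) K)) (x l) •
          A' l).rank < r) ∧
        ∀ f : MvPolynomial (Fin (k + 1) × Fin m × Fin n) K,
          MvPolynomial.aeval (fun s => A' s.1 s.2.1 s.2.2) f = 0 →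
          MvPolynomial.aeval (fun s => A s.1 s.2.1 s.2.2) f = 0)

/-- AG1: a 'generic point' `A` gives an irreducible set of frames whose vanishing polynomials
vanish at `A` -/
def T_AG1 : Prop :=
  ∀ (K : Type u) [Field K] [IsAlgClosed K] (κ₁ : Type u) [Field κ₁] [Algebra K κ₁] (m n k r : ℕ)
    (A : Fin (k + 1) → Matrix (Fin m) (Fin n) κ₁), LinearIndependent κ₁ A →
    (∀ x : Fin (k + 1) → K, (∑ l, algebraMap K κ₁ (x l) • A l).rank < r) →
    ∃ S : Set (Frame K m n k), IsIrreducible S ∧ (∀ M ∈ S, spanMap K m n k M ∈ Fano K m n k r) ∧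
      ∀ f : MvPolynomial (Fin (k + 1) × Fin m × Fin n) K,
        (∀ M ∈ S, MvPolynomial.eval (fun s => M.1 s.1 s.2.1 s.2.2) f = 0) →
        MvPolynomial.aeval (fun s => A s.1 s.2.1 s.2.2) f = 0

/-- AG2: components and unirational parametrisations, in terms of frames -/
def T_AG2 : Prop :=
  ∀ (K : Type u) [Field K] [IsAlgClosed K] (m n k r : ℕ) (S : Set (Frame K m n k)),
    IsIrreducible S → (∀ M ∈ S, spanMap K m n k M ∈ Fano K m n k r) →
    ∃ Y : Set (Gr K m n k), IsComponent K m n k r Y ∧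
      (Unirational K m n k Y → ∃ (N : ℕ)
        (A' : Fin (k + 1) → Matrix (Fin m) (Fin n) (FractionRing (MvPolynomial (Fin N) K))),
        (∀ x : Fin (k + 1) → K, (∑ l, algebraMap K (FractionRing (MvPolynomial (Fin N) K)) (x l) •
          A' l).rank < r) ∧
        ∀ f : MvPolynomial (Fin (k + 1) × Fin m × Fin n) K,
          MvPolynomial.aeval (fun s => A' s.1 s.2.1 s.2.2) f = 0 →
          ∀ M ∈ S, MvPolynomial.eval (fun s => M.1 s.1 s.2.1 s.2.2) f = 0)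

/-- VAL: specialisations are realised by valuation rings -/
def T_VAL : Prop :=
  ∀ (K κ₁ L : Type u) [Field K] [Field κ₁] [Field L] [Algebra K κ₁] [Algebra K L] (σ : Type)
    [Finite σ] (a : σ → κ₁) (a' : σ → L),
    (∀ f : MvPolynomial σ K, MvPolynomial.aeval a' f = 0 → MvPolynomial.aeval a f = 0) →
    IntermediateField.adjoin K (Set.range a) = ⊤ →
    ∃ W : ValuationSubring (AlgebraicClosure L),
      ∃ (hK : ∀ k : K, algebraMap K L k ∈ W.comap (algebraMap L (AlgebraicClosure L)))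
        (ha : ∀ s, a' s ∈ W.comap (algebraMap L (AlgebraicClosure L)))
        (γ : κ₁ →+* ResidueField (W.comap (algebraMap L (AlgebraicClosure L)))),
        (∀ k, γ (algebraMap K κ₁ k) = residue _ ⟨algebraMap K L k, hK k⟩) ∧
        ∀ s, γ (a s) = residue _ ⟨a' s, ha s⟩

/-! ## B. Linear algebra over valuation rings -/

/-- LIFT -/
def T_LIFT : Prop :=
  ∀ (R : Type u) [CommRing R] [IsDomain R] [ValuationRing R] (p q : Type) [Fintype p] [Fintype q]
    (Φ : (p → R) →ₗ[R] (q → R)) (Φb : (p → ResidueField R) →ₗ[ResidueField R] (q → ResidueField R)),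
    (∀ b, (fun j => residue R (Φ b j)) = Φb (fun i => residue R (b i))) →
    (∀ (b : p → R) (c : q → R) (α : R), α ≠ 0 → α ∈ maximalIdeal R → Φ b = α • c →
      (fun j => residue R (c j)) ∈ LinearMap.range Φb) →
    ∀ v : p → ResidueField R, Φb v = 0 → ∃ w : p → R, Φ w = 0 ∧ ∀ i, residue R (w i) = v i

/-- COL -/
def T_COL : Prop :=
  ∀ (R L : Type u) [CommRing R] [IsDomain R] [ValuationRing R] [Field L] [Algebra R L]
    [IsFractionRing R L] (p q : Type) [Fintype p] [Fintype q]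
    (M : Matrix p q R), (M.map (algebraMap R L)).rank ≤ (M.map (residue R)).rank →
    ∀ (b : q → R) (c : p → R) (α : R), α ≠ 0 → M *ᵥ b = α • c →
      ∃ d : q → ResidueField R, (M.map (residue R)) *ᵥ d = fun j => residue R (c j)

/-- LCX: lifting of the complex -/
def T_LCX : Prop :=
  ∀ (K R L : Type u) [Field K] [Infinite K] [CommRing R] [IsDomain R] [ValuationRing R] [Field L]
    [Algebra R L] [IsFractionRing R L] [Algebra K R]
    (ι n1 n2 n3 : Type) [Fintype ι] [LinearOrder ι] [Fintype n1] [Fintype n2] [Fintype n3]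
    (e : ι → Fin 4 → ResidueField R) (A2 : ι → Matrix n3 n2 (ResidueField R))
    (A1 : ι → Matrix n2 n1 (ResidueField R)) (F0 : ι → Matrix n1 (Fin 4) (ResidueField R))
    (A2' : ι → Matrix n3 n2 R),
    CfgCx K e A2 A1 F0 → (∀ i, (A2' i).map (residue R) = A2 i) →
    (∀ x : ι → Kˣ, ((∑ i, algebraMap K R (x i) • A2' i).map (algebraMap R L)).rank ≤
      (∑ i, algebraMap K (ResidueField R) (x i) • A2 i).rank) →
    ∃ (A1' : ι → Matrix n2 n1 R) (F0' : ι → Matrix n1 (Fin 4) R),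
      (∀ i, (A1' i).map (residue R) = A1 i) ∧ (∀ i, (F0' i).map (residue R) = F0 i) ∧
      (∀ i, A1' i * F0' i = 0) ∧ (∀ i j, A1' i * F0' j + A1' j * F0' i = 0) ∧
      (∀ i, A2' i * A1' i = 0) ∧ (∀ i j, A2' i * A1' j + A2' j * A1' i = 0)

/-- STR1: the operators `T j` -/
def T_STR1 : Prop :=
  ∀ (R : Type u) [CommRing R] [IsLocalRing R] (ι n1 : Type) [Fintype ι] [DecidableEq ι]
    [Fintype n1] (e : ι → Fin 4 → ResidueField R) (F0 : ι → Matrix n1 (Fin 4) (ResidueField R))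
    (F0' : ι → Matrix n1 (Fin 4) R),
    (∀ i, (F0' i).map (residue R) = F0 i) → (∀ a, e a 0 = 1) → (∀ a, F0 a *ᵥ e a = 0) →
    LinearIndependent (ResidueField R)
      (fun q : ι × Fin 3 => F0 q.1 *ᵥ Pi.single q.2.succ (1 : ResidueField R)) →
    Fintype.card n1 = 3 * Fintype.card ι →
    ∃ T : Fin 3 → Matrix ι ι R,
      (∀ j, (T j).map (residue R) = Matrix.diagonal (fun a => e a j.succ)) ∧
      ∀ a, F0' a *ᵥ Pi.single 0 1 + ∑ j : Fin 3, ∑ l, T j l a • (F0' l *ᵥ Pi.single j.succ 1) = 0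

/-- STR2: common eigenvectors -/
def T_STR2 : Prop :=
  ∀ (R L : Type u) [CommRing R] [IsDomain R] [ValuationRing R] [Field L] [IsAlgClosed L]
    [Algebra R L] [IsFractionRing R L] (ι n1 n2 : Type) [Fintype ι] [DecidableEq ι]
    [Fintype n1] [Fintype n2] (A1 : ι → Matrix n2 n1 R) (F0 : ι → Matrix n1 (Fin 4) R)
    (T : Fin 3 → Matrix ι ι R) (μ : ι → Fin 3 → ResidueField R),
    (∀ i, A1 i * F0 i = 0) → (∀ i j, A1 i * F0 j + A1 j * F0 i = 0) →
    (∀ j, (T j).map (residue R) = Matrix.diagonal (fun a => μ a j)) →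
    (∀ a, F0 a *ᵥ Pi.single 0 1 + ∑ j : Fin 3, ∑ l, T j l a • (F0 l *ᵥ Pi.single j.succ 1) = 0) →
    Function.Injective (fun a => μ a 0) →
    (∀ a, LinearIndependent (ResidueField R) (fun q : {c : ι // c ≠ a} × Fin 2 => fun s =>
      residue R ((A1 a *ᵥ (F0 q.1 *ᵥ Pi.single q.2.succ.succ 1)) s))) →
    ∃ (z : ι → ι → R) (ν : ι → Fin 3 → R),
      (∀ a j, T j *ᵥ z a = ν a j • z a) ∧ (∀ a j, residue R (ν a j) = μ a j) ∧
      ∀ a l, residue R (z a l) = if l = a then 1 else 0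

/-- STR3: the collinearities of the deformed configuration -/
def T_STR3 : Prop :=
  ∀ (R L : Type u) [CommRing R] [IsDomain R] [ValuationRing R] [Field L]
    [Algebra R L] [IsFractionRing R L] (ι n1 n2 n3 : Type) [Fintype ι] [LinearOrder ι]
    [Fintype n1] [Fintype n2] [Fintype n3] (A2 : ι → Matrix n3 n2 R) (A1 : ι → Matrix n2 n1 R)
    (F0 : ι → Matrix n1 (Fin 4) R) (T : Fin 3 → Matrix ι ι R) (z : ι → ι → R) (ν : ι → Fin 3 → R)
    (e : ι → Fin 4 → ResidueField R),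
    (∀ i, A1 i * F0 i = 0) → (∀ i j, A1 i * F0 j + A1 j * F0 i = 0) →
    (∀ i, A2 i * A1 i = 0) → (∀ i j, A2 i * A1 j + A2 j * A1 i = 0) →
    (∀ a, F0 a *ᵥ Pi.single 0 1 + ∑ j : Fin 3, ∑ l, T j l a • (F0 l *ᵥ Pi.single j.succ 1) = 0) →
    (∀ a j, T j *ᵥ z a = ν a j • z a) → (∀ a l, residue R (z a l) = if l = a then 1 else 0) →
    (∀ a, e a 0 = 1) → (∀ a (j : Fin 3), residue R (ν a j) = e a j.succ) →
    Function.Injective (fun a => e a 1) →
    Submodule.span (ResidueField R) (Set.range fun q : Trs ι × Fin 4 => fun s => residue R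
      ((A2 q.1.1.1 *ᵥ (A1 q.1.1.2.1 *ᵥ (F0 q.1.1.2.2 *ᵥ Pi.single q.2 1))) s)) = ⊤ →
    Fintype.card n3 =
      ∑ t : Trs ι, (4 - Module.finrank (ResidueField R) (E3 e t.1.1 t.1.2.1 t.1.2.2)) →
    ∀ e' : ι → Fin 4 → L, (∀ a, e' a 0 = 1) →
      (∀ a (j : Fin 3), e' a j.succ = algebraMap R L (ν a j)) →
      ∀ a b c, a ≠ b → a ≠ c → b ≠ c → (Col e' a b c ↔ Col e a b c)

/-- GAL: marked points are defined over the perfect closure -/
def T_GAL : Prop :=
  ∀ (L Lb : Type u) [Field L] [Field Lb] [Algebra L Lb] [IsAlgClosure L Lb]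
    (ι : Type) [Fintype ι] [DecidableEq ι] (T : Fin 3 → Matrix ι ι L) (z : ι → ι → Lb)
    (e : ι → Fin 4 → Lb), (∀ a, e a 0 = 1) → Function.Injective (fun a => e a 1) →
    LinearIndependent Lb z →
    (∀ a (j : Fin 3), (T j).map (algebraMap L Lb) *ᵥ z a = e a j.succ • z a) →
    ∀ p, (∀ a, a ≠ p → deg e a ≠ deg e p) →
      ∃ N : ℕ, ∀ N' ≥ N, ∀ j, e p j ^ (ringExpChar L ^ N') ∈ (algebraMap L Lb).range

/-! ## C. The configuration complex -/

/-- GRAD: homogeneous pieces with respect to the torus -/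
def T_GRAD : Prop :=
  ∀ (K κ : Type u) [Field K] [Infinite K] [Field κ] [Algebra K κ] (ι J J' : Type) [Fintype ι]
    [DecidableEq ι] [Fintype J] [Fintype J'] (P : J → Type u) (P' : J' → Type u)
    [∀ j, AddCommGroup (P j)] [∀ j, AddCommGroup (P' j)] [∀ j, Module κ (P j)]
    [∀ j, Module κ (P' j)] (wt : J → Finset ι) (wt' : J' → Finset ι) (d : ℕ)
    (δ : (∀ j, P j) →ₗ[κ] (∀ j, P' j)) (A : ι → (∀ j, P j) →ₗ[κ] (∀ j, P' j)),
    (∀ j, (wt j).card = d) → (∀ j, (wt' j).card = d + 1) →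
    (∀ (x : ι → K) (u : ∀ j, P j),
      ∑ i, algebraMap K κ (x i) • A i (fun j => algebraMap K κ (∏ l ∈ wt j, x l) • u j) =
        fun j' => algebraMap K κ (∏ l ∈ wt' j', x l) • δ u j') →
    (∀ S : Finset ι, S.Nonempty → ∀ u : (∀ j, P j), (∀ j', ¬ S ⊆ wt' j' → δ u j' = 0) →
      ∃ u' : (∀ j, P j), (∀ j, ¬ S ⊆ wt j → u' j = 0) ∧ δ u' = δ u) →
    ∀ c : ι → ι → (∀ j, P' j),
      (∀ x : ι → Kˣ, ∃ u, ∑ i, algebraMap K κ (x i) • A i u =
        ∑ i, ∑ j, algebraMap K κ (x i * x j) • c i j) →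
      ∃ y : ι → (∀ j, P j), (∀ i, A i (y i) = c i i) ∧
        ∀ i j, i ≠ j → A i (y j) + A j (y i) = c i j + c j i

/-- Y1 -/
def T_Y1 : Prop :=
  ∀ (F : Type u) [Field F] (ι : Type) [LinearOrder ι] (e : ι → Fin 4 → F), GP e →
    (∀ v, d0 e v = 0 → v = 0) ∧ (∀ u, d1 e u = 0 → ∃ v, d0 e v = u) ∧
    ∀ S : Finset ι, S.Nonempty → ∀ u : C1 e,
      (∀ p : Prs ι, ¬ S ⊆ {p.1.1, p.1.2} → d1 e u p = 0) →
      ∃ u' : C1 e, (∀ a, ¬ S ⊆ {a} → u' a = 0) ∧ d1 e u' = d1 e u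

/-- Y2 -/
def T_Y2 : Prop :=
  ∀ (F : Type u) [Field F] (ι : Type) [LinearOrder ι] (e : ι → Fin 4 → F), GP e →
    (∀ u, d2 e u = 0 → ∃ v, d1 e v = u) ∧
    ∀ S : Finset ι, S.Nonempty → ∀ u : C2 e,
      (∀ t : Trs ι, ¬ S ⊆ {t.1.1, t.1.2.1, t.1.2.2} → d2 e u t = 0) →
      ∃ u' : C2 e, (∀ p : Prs ι, ¬ S ⊆ {p.1.1, p.1.2} → u' p = 0) ∧ d2 e u' = d2 e u

/-- Z: the complex property -/
def T_Z : Prop :=
  ∀ (F : Type u) [Field F] (ι : Type) [LinearOrder ι] (e : ι → Fin 4 → F),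
    (∀ i v, M1 e i (M0 e i v) = 0) ∧ (∀ i j v, M1 e i (M0 e j v) + M1 e j (M0 e i v) = 0) ∧
    (∀ i v, M2 e i (M1 e i v) = 0) ∧ (∀ i j v, M2 e i (M1 e j v) + M2 e j (M1 e i v) = 0) ∧
    (∀ v, d1 e (d0 e v) = 0) ∧ (∀ v, d2 e (d1 e v) = 0)

/-- TF: torus statement for the two maps of the complex -/
def T_TF : Prop :=
  ∀ (K κ : Type u) [Field K] [Infinite K] [Field κ] [Algebra K κ] (ι : Type) [Fintype ι]
    [LinearOrder ι] (e : ι → Fin 4 → κ), GP e →
    (∀ c : ι → ι → C2 e,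
      (∀ x : ι → Kˣ, ∃ u, ∑ i, algebraMap K κ (x i) • M1 e i u =
        ∑ i, ∑ j, algebraMap K κ (x i * x j) • c i j) →
      ∃ y : ι → C1 e, (∀ i, M1 e i (y i) = c i i) ∧
        ∀ i j, i ≠ j → M1 e i (y j) + M1 e j (y i) = c i j + c j i) ∧
    (∀ c : ι → ι → C3 e,
      (∀ x : ι → Kˣ, ∃ u, ∑ i, algebraMap K κ (x i) • M2 e i u =
        ∑ i, ∑ j, algebraMap K κ (x i * x j) • c i j) →
      ∃ y : ι → C2 e, (∀ i, M2 e i (y i) = c i i) ∧
        ∀ i j, i ≠ j → M2 e i (y j) + M2 e j (y i) = c i j + c j i)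

/-- RK: exactness on the torus and dimensions -/
def T_RK : Prop :=
  ∀ (K κ : Type u) [Field K] [Field κ] [Algebra K κ] (ι : Type) [Fintype ι]
    [LinearOrder ι] (e : ι → Fin 4 → κ), GP e → (∀ a, e a ≠ 0) → PL e →
    (∀ x : ι → Kˣ, LinearMap.range (∑ i, algebraMap K κ (x i) • M1 e i) =
      LinearMap.ker (∑ i, algebraMap K κ (x i) • M2 e i)) ∧
    (∀ x : ι → Kˣ, Module.finrank κ (LinearMap.range (∑ i, algebraMap K κ (x i) • M1 e i)) + 4 =
      3 * Fintype.card ι) ∧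
    Module.finrank κ (C1 e) = 3 * Fintype.card ι ∧
    Module.finrank κ (C2 e) = Fintype.card ι * (Fintype.card ι - 1) ∧
    Module.finrank κ (C3 e) = ∑ t : Trs ι, (4 - Module.finrank κ (E3 e t.1.1 t.1.2.1 t.1.2.2)) ∧
    (Fintype.card ι).choose 3 ≤ Module.finrank κ (C3 e) ∧ 5 ≤ Fintype.card ι

/-- HYP: a configuration gives a `CfgCx` -/
def T_HYP : Prop :=
  ∀ (K κ : Type u) [Field K] [Infinite K] [Field κ] [Algebra K κ] (ι n2 n3 : Type) [Fintype ι]
    [LinearOrder ι] [Fintype n2] [Fintype n3] [DecidableEq n2] [DecidableEq n3]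
    (e : ι → Fin 4 → κ), GP e → (∀ a, e a 0 = 1) → Function.Injective (fun a => e a 1) →
    ∀ (b2 : Module.Basis n2 κ (C2 e)) (b3 : Module.Basis n3 κ (C3 e)),
      ∃ (A1 : ι → Matrix n2 (ι × Fin 3) κ) (F0 : ι → Matrix (ι × Fin 3) (Fin 4) κ),
        CfgCx K e (fun i => LinearMap.toMatrix b2 b3 (M2 e i)) A1 F0

/-- DIM: dimensions, rank, independence and a choice of bases with generating entries -/
def T_DIM : Prop :=
  ∀ (K κ : Type u) [Field K] [Infinite K] [Field κ] [Algebra K κ] (N : ℕ)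
    (e : Fin (N + 1) → Fin 4 → κ), GP e → (∀ a, e a 0 = 1) → Function.Injective (fun a => e a 1) →
    ∀ x y : κ, x ≠ 0 → y ≠ 0 → IntermediateField.adjoin K {x, y} = ⊤ →
    ∃ (m n r : ℕ) (b2 : Module.Basis (Fin n) κ (C2 e)) (b3 : Module.Basis (Fin m) κ (C3 e)),
      1 ≤ r ∧ r ≤ m ∧ r ≤ n ∧
      LinearIndependent κ (fun i => LinearMap.toMatrix b2 b3 (M2 e i)) ∧
      (∀ z : Fin (N + 1) → Kˣ,
        (∑ i, algebraMap K κ (z i) • LinearMap.toMatrix b2 b3 (M2 e i)).rank + 1 = r) ∧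
      IntermediateField.adjoin K (Set.range fun s : Fin (N + 1) × Fin m × Fin n =>
        LinearMap.toMatrix b2 b3 (M2 e s.1) s.2.1 s.2.2) = ⊤

/-- BC: base change of the matrices of a configuration -/
def T_BC : Prop :=
  ∀ (F F' : Type u) [Field F] [Field F'] (γ : F →+* F') (ι n2 n3 : Type) [Fintype ι]
    [LinearOrder ι] [Fintype n2] [Fintype n3] [DecidableEq n2] [DecidableEq n3]
    (e : ι → Fin 4 → F) (b2 : Module.Basis n2 F (C2 e)) (b3 : Module.Basis n3 F (C3 e)),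
    ∃ (b2' : Module.Basis n2 F' (C2 (fun a j => γ (e a j))))
      (b3' : Module.Basis n3 F' (C3 (fun a j => γ (e a j)))),
      ∀ i, LinearMap.toMatrix b2' b3' (M2 (fun a j => γ (e a j)) i) =
        (LinearMap.toMatrix b2 b3 (M2 e i)).map γ

/-! ## D. Configurations -/

/-- QUAD: the gadgets compute -/
def T_QUAD : Prop :=
  ∀ (F : Type u) [Field F] (ι : Type) (e : ι → Fin 4 → F) (o i w x y : ι), (∀ a, e a 0 = 1) →
    Function.Injective (fun a => e a 1) → o ≠ i → o ≠ w → i ≠ w → x ≠ o → x ≠ w → y ≠ o → y ≠ w →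
    Col e o w i → Col e o w x → Col e o w y →
    (∀ m, m ≠ o → m ≠ w → Col e o w m → MulG e o i w x y m →
      cr e o i w m = cr e o i w x * cr e o i w y) ∧
    (AddG e o i w x y → cr e o i w x + cr e o i w y = 1)

/-- TAIL: adding a tail line through the point `p` -/
def T_TAIL : Prop :=
  ∀ (F : Type u) [Field F] [Infinite F] (ι : Type) [Fintype ι] (e : ι → Fin 4 → F), PL e →
    (∀ a, e a ≠ 0) → ∀ (p : ι) (n : ℕ), ∃ τ : Fin n → Fin 4 → F,
      PL (Sum.elim e τ) ∧ (∀ j, τ j ≠ 0) ∧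
      ∀ a b c : ι ⊕ Fin n, a ≠ b → a ≠ c → b ≠ c →
        (Col (Sum.elim e τ) a b c ↔
          (∃ a' b' c', a = .inl a' ∧ b = .inl b' ∧ c = .inl c' ∧ Col e a' b' c') ∨
          (∀ z ∈ ({a, b, c} : Set (ι ⊕ Fin n)), z = .inl p ∨ ∃ j, z = .inr j))

/-- MARK: making the degrees of finitely many points unique -/
def T_MARK : Prop :=
  ∀ (F : Type u) [Field F] [Infinite F] (ι : Type) [Fintype ι] [DecidableEq ι]
    (e : ι → Fin 4 → F), PL e → (∀ a, e a ≠ 0) → ∀ M : Finset ι, (∀ p ∈ M, 0 < deg e p) →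
      ∃ (s : Type) (_ : Fintype s) (τ : s → Fin 4 → F), PL (Sum.elim e τ) ∧ (∀ j, τ j ≠ 0) ∧
        ∀ p ∈ M, 0 < deg (Sum.elim e τ) (.inl p) ∧
          ∀ a, a ≠ .inl p → deg (Sum.elim e τ) a ≠ deg (Sum.elim e τ) (.inl p)

/-- GP8: adding eight generic points -/
def T_GP8 : Prop :=
  ∀ (F : Type u) [Field F] [Infinite F] (ι : Type) [Fintype ι] [DecidableEq ι]
    (e : ι → Fin 4 → F), PL e → (∀ a, e a ≠ 0) →
      ∃ τ : Fin 8 → Fin 4 → F, PL (Sum.elim e τ) ∧ (∀ j, τ j ≠ 0) ∧ GP (Sum.elim e τ) ∧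
        ∀ a b c : ι ⊕ Fin 8, a ≠ b → a ≠ c → b ≠ c → Col (Sum.elim e τ) a b c →
          ∃ a' b' c', a = .inl a' ∧ b = .inl b' ∧ c = .inl c'

/-- NORM: normalisation of the coordinates -/
def T_NORM : Prop :=
  ∀ (F : Type u) [Field F] [Infinite F] (ι : Type) [Fintype ι] (e : ι → Fin 4 → F), PL e →
    (∀ a, e a ≠ 0) → ∃ e' : ι → Fin 4 → F, (∀ a, e' a 0 = 1) ∧
      Function.Injective (fun a => e' a 1) ∧
      (∀ (s : ℕ) (f : Fin s → ι), LinearIndependent F (fun i => e' (f i)) ↔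
        LinearIndependent F (fun i => e (f i))) ∧
      ∀ (o i w p : ι) (v : F), o ≠ i → o ≠ w → i ≠ w → p ≠ w → e i = e o + e w →
        e p = e o + v • e w → cr e' o i w p = v

/-- GADM: adding a multiplication gadget -/
def T_GADM : Prop :=
  ∀ (F : Type u) [Field F] [Infinite F] (ι : Type) [Fintype ι] (e : ι → Fin 4 → F), PL e →
    (∀ a, e a ≠ 0) → ∀ (o i w x y m : ι) (X Y : F), X ≠ 0 → X ≠ 1 → Y ≠ 0 → Y ≠ 1 → o ≠ w →
      e i = e o + e w → e x = e o + X • e w → e y = e o + Y • e w → e m = e o + (X * Y) • e w →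
      ∃ τ : Fin 4 → Fin 4 → F, PL (Sum.elim e τ) ∧ (∀ j, τ j ≠ 0) ∧
        MulG (Sum.elim e τ) (.inl o) (.inl i) (.inl w) (.inl x) (.inl y) (.inl m)

/-- GADA: adding an addition gadget -/
def T_GADA : Prop :=
  ∀ (F : Type u) [Field F] [Infinite F] (ι : Type) [Fintype ι] (e : ι → Fin 4 → F), PL e →
    (∀ a, e a ≠ 0) → ∀ (o i w x y : ι) (X Y : F), X ≠ 0 → Y ≠ 0 → X + Y = 1 → o ≠ w →
      e i = e o + e w → e x = e o + X • e w → e y = e o + Y • e w →
      ∃ τ : Fin 4 → Fin 4 → F, PL (Sum.elim e τ) ∧ (∀ j, τ j ≠ 0) ∧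
        AddG (Sum.elim e τ) (.inl o) (.inl i) (.inl w) (.inl x) (.inl y)

/-- CONF: existence of the configuration -/
def T_CONF : Prop :=
  ∀ (F : Type u) [Field F] [Infinite F] (n : ℕ), (n = 3 ∨ n = 4) → ∀ x y : F, x ^ n + y ^ n = 1 →
    [0, 1, x, x ^ 2, x ^ n, y, y ^ 2, y ^ n].Nodup →
    ∃ (N : ℕ) (e : Fin (N + 1) → Fin 4 → F) (o i w x1 x2 xn y1 y2 yn : Fin (N + 1)),
      (∀ a, e a 0 = 1) ∧ Function.Injective (fun a => e a 1) ∧ GP e ∧
      [o, i, w, x1, x2, xn, y1, y2, yn].Nodup ∧ Col e o w i ∧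
      Col e o w x1 ∧ Col e o w x2 ∧ Col e o w xn ∧ Col e o w y1 ∧ Col e o w y2 ∧ Col e o w yn ∧
      MulG e o i w x1 x1 x2 ∧ MulG e o i w x2 (if n = 3 then x1 else x2) xn ∧
      MulG e o i w y1 y1 y2 ∧ MulG e o i w y2 (if n = 3 then y1 else y2) yn ∧
      AddG e o i w xn yn ∧ cr e o i w x1 = x ∧ cr e o i w y1 = y ∧
      ∀ p ∈ ({o, i, w, x1, y1} : Set (Fin (N + 1))), ∀ a, a ≠ p → deg e a ≠ deg e p

end Pool.Agent.H67.FS
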