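import Mathlib
import Pool.Agent.H67.FS.Targets

set_option autoImplicit false

/-!
# FINAL, part 1: transfer lemmas
-/

namespace Pool.Agent.H67.FS

open Matrix IsLocalRing

universe u

section transfer

variable {F F' : Type u} [Field F] [Field F'] (γ : F →+* F')

theorem liT (h : T_MAPFR.{u}) {s n : Type} [Fintype s] [Fintype n] (v : s → n → F) :
    LinearIndependent F' (fun i j => γ (v i j)) ↔ LinearIndependent F v := by
  rw [linearIndependent_iff_card_eq_finrank_span, linearIndependent_iff_card_eq_finrank_span,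
    Set.finrank, Set.finrank, h F F' γ s n v]

theorem rankT (h : T_MAPFR.{u}) {m n : Type} [Fintype m] [Fintype n] (M : Matrix m n F) :
    (M.map γ).rank = M.rank := by
  classical
  rw [Matrix.rank_eq_finrank_span_cols, Matrix.rank_eq_finrank_span_cols]
  exact h F F' γ n m (fun j i => M i j)

theorem topT (h : T_MAPFR.{u}) {s n : Type} [Fintype s] [Fintype n] (v : s → n → F)
    (hv : Submodule.span F (Set.range v) = ⊤) :
    Submodule.span F' (Set.range fun i j => γ (v i j)) = ⊤ := by
  apply Submodule.eq_top_of_finrank_eq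
  rw [h F F' γ s n v, hv, finrank_top]
  simp

theorem E3T (h : T_MAPFR.{u}) {ι : Type} (e : ι → Fin 4 → F) (a b c : ι) :
    Module.finrank F' (E3 (fun a j => γ (e a j)) a b c) = Module.finrank F (E3 e a b c) := by
  have := h F F' γ (Fin 3) (Fin 4) ![e a, e b, e c]
  have h1 : (Set.range fun (i : Fin 3) (j : Fin 4) => γ ((![e a, e b, e c] : Fin 3 → Fin 4 → F) i j))
      = {(fun j => γ (e a j)), (fun j => γ (e b j)), (fun j => γ (e c j))} := by
    ext x
    simp only [Set.mem_range, Set.mem_insert_iff, Set.mem_singleton_iff]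
    constructor
    · rintro ⟨i, rfl⟩
      fin_cases i <;> simp
    · rintro (rfl | rfl | rfl)
      · exact ⟨0, rfl⟩
      · exact ⟨1, rfl⟩
      · exact ⟨2, rfl⟩
  have h2 : (Set.range (![e a, e b, e c] : Fin 3 → Fin 4 → F)) = {e a, e b, e c} := by
    ext x
    simp only [Set.mem_range, Set.mem_insert_iff, Set.mem_singleton_iff]
    constructor
    · rintro ⟨i, rfl⟩
      fin_cases i <;> simp
    · rintro (rfl | rfl | rfl)
      · exact ⟨0, rfl⟩
      · exact ⟨1, rfl⟩
      · exact ⟨2, rfl⟩
  rw [h1, h2] at this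
  exact this

theorem ColT (h : T_MAPFR.{u}) {ι : Type} (e : ι → Fin 4 → F) (a b c : ι) :
    Col (fun a j => γ (e a j)) a b c ↔ Col e a b c := by
  unfold Col
  rw [← liT γ h ![e a, e b, e c]]
  have : (fun (i : Fin 3) (j : Fin 4) => γ ((![e a, e b, e c] : Fin 3 → Fin 4 → F) i j)) =
      ![(fun j => γ (e a j)), (fun j => γ (e b j)), (fun j => γ (e c j))] := by
    funext i
    fin_cases i <;> rfl
  rw [this]

theorem GPT (h : T_MAPFR.{u}) {ι : Type} (e : ι → Fin 4 → F) (he : GP e) :
    GP (fun a j => γ (e a j)) := by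
  intro S hS
  obtain ⟨g, k, h1, h2, h3, h4⟩ := he S hS
  refine ⟨g, k, h1, h2, h3, fun a b hab hag hah hbg hbh => ?_⟩
  have := h4 a b hab hag hah hbg hbh
  rw [← liT γ h ![e g, e k, e a, e b]] at this
  have h5 : (fun (i : Fin 4) (j : Fin 4) =>
      γ ((![e g, e k, e a, e b] : Fin 4 → Fin 4 → F) i j)) =
      ![(fun j => γ (e g j)), (fun j => γ (e k j)), (fun j => γ (e a j)), (fun j => γ (e b j))] := by
    funext i
    fin_cases i <;> rfl
  rwa [h5] at this

end transfer

end Pool.Agent.H67.FS
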