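import Mathlib
import Pool.Agent.H67.FS.Final1

set_option autoImplicit false

/-!
# FINAL, part 2: from a unirational parametrisation to a deformed configuration
-/

namespace Pool.Agent.H67.FS

open Matrix IsLocalRing

universe u

section incl

variable {L Lb : Type u} [Field L] [Field Lb] [Algebra L Lb] (W : ValuationSubring Lb)

/-- the inclusion of `V = W ∩ L` into `W` -/
def inclW : (W.comap (algebraMap L Lb)) →+* W :=
  ((algebraMap L Lb).comp (W.comap (algebraMap L Lb)).subtype).codRestrict W.toSubring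
    (fun v => v.2)

instance inclW_isLocal : IsLocalHom (inclW (L := L) W) := by
  constructor
  intro v hv
  obtain ⟨u, hu⟩ := hv
  have hv0 : (v : L) ≠ 0 := by
    intro h0
    have h1 : (inclW (L := L) W v : Lb) = 0 := by
      change algebraMap L Lb (v : L) = 0
      rw [h0, map_zero]
    have h2 : (u : W) = 0 := by
      rw [hu]; exact Subtype.ext h1
    exact u.ne_zero h2
  have hinv : (v : L)⁻¹ ∈ W.comap (algebraMap L Lb) := by
    rw [ValuationSubring.mem_comap, map_inv₀]
    have h1 : ((u⁻¹ : Wˣ) : W) * (u : W) = 1 := by simp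
    have h2 : (((u⁻¹ : Wˣ) : W) : Lb) * (algebraMap L Lb (v : L)) = 1 := by
      have := congrArg (fun t : W => (t : Lb)) h1
      simp only [hu] at this
      exact this
    have h3 : (algebraMap L Lb (v : L))⁻¹ = (((u⁻¹ : Wˣ) : W) : Lb) :=
      (eq_inv_of_mul_eq_one_left h2).symm
    rw [h3]
    exact Subtype.mem _
  exact IsUnit.of_mul_eq_one ⟨(v : L)⁻¹, hinv⟩ (Subtype.ext (mul_inv_cancel₀ hv0))

end incl

/-- `W ∩ L` -/
noncomputable abbrev VL {L : Type u} [Field L] (W : ValuationSubring (AlgebraicClosure L)) :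
    ValuationSubring L := W.comap (algebraMap L (AlgebraicClosure L))

theorem core (hMAPFR : T_MAPFR.{u}) (hHYP : T_HYP.{u}) (hBC : T_BC.{u}) (hLCX : T_LCX.{u})
    (hSTR1 : T_STR1.{u}) (hSTR2 : T_STR2.{u}) (hSTR3 : T_STR3.{u}) (hGAL : T_GAL.{u})
    (K κ₁ L : Type u) [Field K] [Infinite K] [Field κ₁] [Field L] [Algebra K κ₁] [Algebra K L]
    (N m n r : ℕ) (e : Fin (N + 1) → Fin 4 → κ₁) (hGP : GP e) (he0 : ∀ a, e a 0 = 1)
    (hinj : Function.Injective (fun a => e a 1))
    (b2 : Module.Basis (Fin n) κ₁ (C2 e)) (b3 : Module.Basis (Fin m) κ₁ (C3 e))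
    (hrk : ∀ z : Fin (N + 1) → Kˣ,
        (∑ i, algebraMap K κ₁ (z i) • LinearMap.toMatrix b2 b3 (M2 e i)).rank + 1 = r)
    (A' : Fin (N + 1) → Matrix (Fin m) (Fin n) L)
    (hA' : ∀ x : Fin (N + 1) → K, (∑ l, algebraMap K L (x l) • A' l).rank < r)
    (W : ValuationSubring (AlgebraicClosure L))
    (hK : ∀ k : K, algebraMap K L k ∈ VL W)
    (ha : ∀ i s t, A' i s t ∈ VL W)
    (γ : κ₁ →+* ResidueField (VL W))
    (hγK : ∀ k, γ (algebraMap K κ₁ k) = residue _ ⟨algebraMap K L k, hK k⟩)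
    (hγ : ∀ i s t, γ (LinearMap.toMatrix b2 b3 (M2 e i) s t) = residue _ ⟨A' i s t, ha i s t⟩) :
    ∃ (e' : Fin (N + 1) → Fin 4 → AlgebraicClosure L) (θ : κ₁ →+* ResidueField W),
      (∀ a, e' a 0 = 1) ∧ Function.Injective (fun a => e' a 1) ∧
      (∀ a b c, a ≠ b → a ≠ c → b ≠ c → (Col e' a b c ↔ Col e a b c)) ∧
      (∀ p, (∀ a, a ≠ p → deg e a ≠ deg e p) → ∃ N₀ : ℕ, ∀ N' ≥ N₀, ∀ j,
        e' p j ^ (ringExpChar L ^ N') ∈ (algebraMap L (AlgebraicClosure L)).range) ∧
      (∀ a, ∃ h : e' a 1 ∈ W, residue W ⟨e' a 1, h⟩ = θ (e a 1)) ∧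
      (∀ k : K, ∃ h : algebraMap L (AlgebraicClosure L) (algebraMap K L k) ∈ W,
        residue W ⟨_, h⟩ = θ (algebraMap K κ₁ k)) := by
  classical
  let algKV : Algebra K (VL W) := RingHom.toAlgebra
    ((algebraMap K L).codRestrict (VL W).toSubring hK)
  have hKV : ∀ k, ((algebraMap K (VL W) k : (VL W)) : L) = algebraMap K L k := fun k => rfl
  have hKκ : ∀ k, algebraMap K (ResidueField (VL W)) k = γ (algebraMap K κ₁ k) := by
    intro k
    rw [hγK k]
    rfl
  set e₁ : Fin (N + 1) → Fin 4 → ResidueField (VL W) := fun a j => γ (e a j) with he₁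
  obtain ⟨b2', b3', hbc⟩ : ∃ (b2' : Module.Basis (Fin n) (ResidueField (VL W)) (C2 e₁))
      (b3' : Module.Basis (Fin m) (ResidueField (VL W)) (C3 e₁)),
      ∀ i, LinearMap.toMatrix b2' b3' (M2 e₁ i) =
        (LinearMap.toMatrix b2 b3 (M2 e i)).map γ :=
    hBC κ₁ (ResidueField (VL W)) γ (Fin (N + 1)) (Fin n) (Fin m) e b2 b3
  have hγi : Function.Injective γ := γ.injective
  have he₁0 : ∀ a, e₁ a 0 = 1 := fun a => by rw [he₁]; simp only [he0 a, map_one]
  have he₁i : Function.Injective (fun a => e₁ a 1) := fun a b hab => hinj (hγi hab)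
  have hGP₁ : GP e₁ := GPT γ hMAPFR e hGP
  obtain ⟨A1, F0, hcfg⟩ := hHYP K (ResidueField (VL W)) (Fin (N + 1)) (Fin n) (Fin m) e₁ hGP₁ he₁0
    he₁i b2' b3'
  set A2' : Fin (N + 1) → Matrix (Fin m) (Fin n) (VL W) := fun i => Matrix.of fun s t =>
    (⟨A' i s t, ha i s t⟩ : (VL W)) with hA2'
  have hA2r : ∀ i, (A2' i).map (residue (VL W)) = LinearMap.toMatrix b2' b3' (M2 e₁ i) := by
    intro i
    rw [hbc i]
    ext s t
    exact (hγ i s t).symm
  have hrk2 : ∀ x : Fin (N + 1) → Kˣ,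
      ((∑ i, algebraMap K (VL W) (x i) • A2' i).map (algebraMap (VL W) L)).rank ≤
      (∑ i, algebraMap K (ResidueField (VL W)) (x i) • LinearMap.toMatrix b2' b3' (M2 e₁ i)).rank := by
    intro x
    have h1 : (∑ i, algebraMap K (VL W) (x i) • A2' i).map (algebraMap (VL W) L) =
        ∑ i, algebraMap K L (x i) • A' i := by
      ext s t
      simp only [Matrix.map_apply, Matrix.sum_apply, Matrix.smul_apply, map_sum, smul_eq_mul,
        map_mul]
      rfl
    have h2 : (∑ i, algebraMap K (ResidueField (VL W)) (x i) •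
        LinearMap.toMatrix b2' b3' (M2 e₁ i)) =
        (∑ i, algebraMap K κ₁ (x i) • LinearMap.toMatrix b2 b3 (M2 e i)).map γ := by
      ext s t
      simp only [Matrix.map_apply, Matrix.sum_apply, Matrix.smul_apply, map_sum, smul_eq_mul,
        map_mul, hbc, hKκ]
    rw [h1, h2, rankT γ hMAPFR]
    have h3 := hA' (fun i => (x i : K))
    have h4 := hrk x
    omega
  obtain ⟨A1', F0', hA1', hF0', h10, h10', h21, h21'⟩ := hLCX K (VL W) L (Fin (N + 1))
    (Fin (N + 1) × Fin 3) (Fin n) (Fin m) e₁ _ A1 F0 A2' hcfg hA2r hrk2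
  obtain ⟨T, hT, hTF⟩ := hSTR1 (VL W) (Fin (N + 1)) (Fin (N + 1) × Fin 3) e₁ F0 F0' hF0' he₁0
    hcfg.b1e hcfg.b1 hcfg.b1c
  -- pass to `W`
  set φ : (VL W) →+* W := inclW (L := L) W with hφ
  set ψ : ResidueField (VL W) →+* ResidueField W := ResidueField.map φ with hψ
  have hψr : ∀ v, residue W (φ v) = ψ (residue (VL W) v) := fun v => rfl
  set e₂ : Fin (N + 1) → Fin 4 → ResidueField W := fun a j => ψ (e₁ a j) with he₂
  have hmv : ∀ (p q : Type) [Fintype p] [Fintype q] (M : Matrix p q (VL W)) (v : q → (VL W)),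
      (M.map φ) *ᵥ (fun i => φ (v i)) = fun i => φ ((M *ᵥ v) i) := by
    intro p q _ _ M v
    funext i
    exact (RingHom.map_mulVec φ M v i).symm
  have hsingle : ∀ (j : Fin 4), (fun i => φ ((Pi.single j (1 : (VL W)) : Fin 4 → (VL W)) i)) =
      (Pi.single j (1 : W) : Fin 4 → W) := by
    intro j
    funext i
    by_cases hij : i = j
    · subst hij; simp
    · simp [hij]
  set A1W := fun i => (A1' i).map φ with hA1W
  set F0W := fun i => (F0' i).map φ with hF0W
  set A2W := fun i => (A2' i).map φ with hA2W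
  set TW := fun j => (T j).map φ with hTW
  have w1 : ∀ i, A1W i * F0W i = 0 := by
    intro i
    simp only [hA1W, hF0W]
    rw [← Matrix.map_mul, h10 i, Matrix.map_zero _ (map_zero φ)]
  have w2 : ∀ i j, A1W i * F0W j + A1W j * F0W i = 0 := by
    intro i j
    simp only [hA1W, hF0W]
    rw [← Matrix.map_mul, ← Matrix.map_mul, ← Matrix.map_add _ (map_add φ), h10' i j,
      Matrix.map_zero _ (map_zero φ)]
  have w3 : ∀ i, A2W i * A1W i = 0 := by
    intro i
    simp only [hA1W, hA2W]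
    rw [← Matrix.map_mul, h21 i, Matrix.map_zero _ (map_zero φ)]
  have w4 : ∀ i j, A2W i * A1W j + A2W j * A1W i = 0 := by
    intro i j
    simp only [hA1W, hA2W]
    rw [← Matrix.map_mul, ← Matrix.map_mul, ← Matrix.map_add _ (map_add φ), h21' i j,
      Matrix.map_zero _ (map_zero φ)]
  have w5 : ∀ j, (TW j).map (residue W) = Matrix.diagonal (fun a => e₂ a j.succ) := by
    intro j
    have := hT j
    ext a b
    have h1 := congrFun (congrFun this a) b
    simp only [Matrix.map_apply] at h1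
    simp only [hTW, Matrix.map_apply, hψr, h1, Matrix.diagonal_apply]
    split_ifs <;> simp [he₂]
  have w6 : ∀ a, F0W a *ᵥ Pi.single 0 1 + ∑ j : Fin 3, ∑ l, TW j l a •
      (F0W l *ᵥ Pi.single j.succ 1) = 0 := by
    intro a
    have h1 := hTF a
    funext s
    have h2 := congrArg (fun t => φ (t s)) h1
    simp only [hF0W, ← hsingle, hmv]
    simp only [Pi.add_apply, Pi.zero_apply, map_add, map_zero, Finset.sum_apply, map_sum,
      Pi.smul_apply, smul_eq_mul, map_mul] at h2 ⊢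
    exact h2
  have w7 : Function.Injective (fun a => e₂ a (1 : Fin 4)) := fun a b hab =>
    he₁i (ψ.injective hab)
  have hres : ∀ (p q : Type) [Fintype p] [Fintype q] (M : Matrix p q (VL W)) (M₀ : Matrix p q
      (ResidueField (VL W))) (v : q → (VL W)) (v₀ : q → ResidueField (VL W)), M.map (residue (VL W)) = M₀ →
      (∀ i, residue (VL W) (v i) = v₀ i) → ∀ i, residue (VL W) ((M *ᵥ v) i) = (M₀ *ᵥ v₀) i := by
    intro p q _ _ M M₀ v v₀ hM hv i
    rw [RingHom.map_mulVec (residue (VL W)) M v i, hM]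
    congr 2
    funext j
    exact hv j
  have hsingleR : ∀ (j i : Fin 4), residue (VL W) ((Pi.single j (1 : (VL W)) : Fin 4 → (VL W)) i) =
      (Pi.single j (1 : ResidueField (VL W)) : Fin 4 → ResidueField (VL W)) i := by
    intro j i
    by_cases hij : i = j
    · subst hij; simp
    · simp [hij]
  have w8 : ∀ a, LinearIndependent (ResidueField W)
      (fun q : {c : Fin (N + 1) // c ≠ a} × Fin 2 => fun s =>
      residue W ((A1W a *ᵥ (F0W q.1 *ᵥ Pi.single q.2.succ.succ 1)) s)) := by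
    intro a
    have h1 := hcfg.b2 a
    rw [← liT ψ hMAPFR] at h1
    convert h1 using 1
    funext q s
    simp only [hA1W, hF0W, ← hsingle, hmv, hψr]
    congr 1
    exact hres _ _ _ _ _ _ (hA1' a) (hres _ _ _ _ _ _ (hF0' _) (hsingleR _)) s
  obtain ⟨z, ν, hz1, hz2, hz3⟩ := hSTR2 W (AlgebraicClosure L) (Fin (N + 1))
    (Fin (N + 1) × Fin 3) (Fin n) A1W F0W TW (fun a j => e₂ a j.succ) w1 w2 w5 w6 w7 w8
  set e' : Fin (N + 1) → Fin 4 → AlgebraicClosure L := fun a j =>
    Fin.cases (1 : AlgebraicClosure L) (fun j => algebraMap W (AlgebraicClosure L) (ν a j)) j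
    with he'
  have he'0 : ∀ a, e' a 0 = 1 := fun a => rfl
  have he's : ∀ a (j : Fin 3), e' a j.succ = algebraMap W (AlgebraicClosure L) (ν a j) :=
    fun a j => rfl
  have w9 : Submodule.span (ResidueField W) (Set.range fun q : Trs (Fin (N + 1)) × Fin 4 =>
      fun s => residue W ((A2W q.1.1.1 *ᵥ (A1W q.1.1.2.1 *ᵥ (F0W q.1.1.2.2 *ᵥ
        Pi.single q.2 1))) s)) = ⊤ := by
    have h1 := topT ψ hMAPFR _ hcfg.b3
    rw [← h1]
    congr 2
    funext q s
    simp only [hA1W, hF0W, hA2W, ← hsingle, hmv, hψr]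
    congr 1
    exact hres _ _ _ _ _ _ (hA2r _) (hres _ _ _ _ _ _ (hA1' _)
      (hres _ _ _ _ _ _ (hF0' _) (hsingleR _))) s
  have w10 : Fintype.card (Fin m) = ∑ t : Trs (Fin (N + 1)),
      (4 - Module.finrank (ResidueField W) (E3 e₂ t.1.1 t.1.2.1 t.1.2.2)) := by
    have h1 := hcfg.d3
    rw [h1]
    refine Finset.sum_congr rfl fun t _ => ?_
    rw [he₂, E3T ψ hMAPFR]
  have hcol := hSTR3 W (AlgebraicClosure L) (Fin (N + 1)) (Fin (N + 1) × Fin 3) (Fin n) (Fin m)
    A2W A1W F0W TW z ν e₂ w1 w2 w3 w4 w6 hz1 hz3 (fun a => by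
      simp only [he₂, he₁0, map_one]) hz2 w7 w9 w10 e' he'0 he's
  have hcol' : ∀ a b c, a ≠ b → a ≠ c → b ≠ c → (Col e' a b c ↔ Col e a b c) := by
    intro a b c hab hac hbc'
    rw [hcol a b c hab hac hbc', he₂, ColT ψ hMAPFR, he₁, ColT γ hMAPFR]
  have hdeg : ∀ a, deg e' a = deg e a := by
    intro a
    unfold deg
    refine Nat.card_congr (Equiv.subtypeEquivRight fun p => ?_)
    constructor
    · rintro ⟨h1, h2, h3, h4⟩
      exact ⟨h1, h2, h3, (hcol' a p.1 p.2 h2.symm h3.symm h1).1 h4⟩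
    · rintro ⟨h1, h2, h3, h4⟩
      exact ⟨h1, h2, h3, (hcol' a p.1 p.2 h2.symm h3.symm h1).2 h4⟩
  have he'i : Function.Injective (fun a => e' a 1) := by
    intro a b hab
    have h1 : ν a 0 = ν b 0 := by
      have h2 : algebraMap W (AlgebraicClosure L) (ν a 0) =
        algebraMap W (AlgebraicClosure L) (ν b 0) := hab
      exact Subtype.ext h2
    apply w7
    change e₂ a (Fin.succ 0) = e₂ b (Fin.succ 0)
    rw [← hz2 a 0, ← hz2 b 0, h1]
  refine ⟨e', ψ.comp γ, he'0, he'i, hcol', ?_, ?_, ?_⟩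
  · intro p hp
    refine hGAL L (AlgebraicClosure L) (Fin (N + 1)) (fun j => (T j).map (algebraMap (VL W) L))
      (fun a l => algebraMap W (AlgebraicClosure L) (z a l)) e' he'0 he'i ?_ ?_ p ?_
    · have hdet : IsUnit (Matrix.det (Matrix.of z)) := by
        by_contra hu
        have h1 : residue W (Matrix.det (Matrix.of z)) = 0 := by
          rw [IsLocalRing.residue_eq_zero_iff]
          exact (IsLocalRing.mem_maximalIdeal _).2 hu
        rw [RingHom.map_det] at h1
        have h2 : (residue W).mapMatrix (Matrix.of z) = 1 := by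
          ext a l
          simp only [RingHom.mapMatrix_apply, Matrix.map_apply, Matrix.of_apply, hz3,
            Matrix.one_apply]
          simp only [eq_comm]
        rw [h2, Matrix.det_one] at h1
        exact one_ne_zero h1
      have h3 : IsUnit ((algebraMap W (AlgebraicClosure L)).mapMatrix (Matrix.of z)) := by
        rw [Matrix.isUnit_iff_isUnit_det, ← RingHom.map_det]
        exact hdet.map _
      exact Matrix.linearIndependent_rows_of_isUnit h3
    · intro a j
      have h1 := hz1 a j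
      funext s
      have h2 := congrArg (fun t => algebraMap W (AlgebraicClosure L) (t s)) h1
      simp only [Pi.smul_apply, smul_eq_mul, map_mul] at h2
      rw [Pi.smul_apply, smul_eq_mul, he's, ← h2, RingHom.map_mulVec]
      rfl
    · intro a hap
      rw [hdeg, hdeg]
      exact hp a hap
  · intro a
    refine ⟨(ν a 0).2, ?_⟩
    exact hz2 a 0
  · intro k
    refine ⟨(φ ⟨algebraMap K L k, hK k⟩).2, ?_⟩
    change residue W (φ ⟨algebraMap K L k, hK k⟩) = ψ (γ (algebraMap K κ₁ k))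
    rw [hψr, hγK k]

end Pool.Agent.H67.FS
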