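import Mathlib
import Pool.Agent.H67.FS.Final2

set_option autoImplicit false

/-!
# FINAL, part 3: the final theorem from the targets
-/

namespace Pool.Agent.H67.FS

open Matrix IsLocalRing

universe u

section transferCfg

variable {F F' : Type u} [Field F] [Field F'] {ι : Type} {e : ι → Fin 4 → F}
  {e' : ι → Fin 4 → F'}

theorem ne_of_LI3 {p q r : ι} (h : LinearIndependent F ![e p, e q, e r]) :
    p ≠ q ∧ p ≠ r ∧ q ≠ r := by
  have hi := h.injective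
  refine ⟨?_, ?_, ?_⟩
  · rintro rfl
    have : (0 : Fin 3) = 1 := hi rfl
    exact absurd this (by decide)
  · rintro rfl
    have : (0 : Fin 3) = 2 := hi rfl
    exact absurd this (by decide)
  · rintro rfl
    have : (1 : Fin 3) = 2 := hi rfl
    exact absurd this (by decide)

theorem MulG_transfer (hcol : ∀ a b c, a ≠ b → a ≠ c → b ≠ c → (Col e' a b c ↔ Col e a b c))
    {o i w x y m : ι} (h : MulG e o i w x y m) : MulG e' o i w x y m := by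
  obtain ⟨p, q, r, s, hli, hps, hqs, hrs, hz, h1, h2, h3, h4, h5, h6⟩ := h
  obtain ⟨hpq, hpr, hqr⟩ := ne_of_LI3 hli
  have ho := hz o (by simp)
  have hi := hz i (by simp)
  have hw := hz w (by simp)
  have hx := hz x (by simp)
  have hy := hz y (by simp)
  have hm := hz m (by simp)
  refine ⟨p, q, r, s, ?_, hps, hqs, hrs, hz, ?_, ?_, ?_, ?_, ?_, ?_⟩
  · by_contra hc
    exact ((hcol p q r hpq hpr hqr).1 hc) hli
  · exact (hcol p q o hpq ho.1.symm ho.2.1.symm).2 h1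
  · exact (hcol r s w hrs hw.2.2.1.symm hw.2.2.2.symm).2 h2
  · exact (hcol p r i hpr hi.1.symm hi.2.2.1.symm).2 h3
  · exact (hcol q s m hqs hm.2.1.symm hm.2.2.2.symm).2 h4
  · exact (hcol p s x hps hx.1.symm hx.2.2.2.symm).2 h5
  · exact (hcol q r y hqr hy.2.1.symm hy.2.2.1.symm).2 h6

theorem AddG_transfer (hcol : ∀ a b c, a ≠ b → a ≠ c → b ≠ c → (Col e' a b c ↔ Col e a b c))
    {o i w x y : ι} (h : AddG e o i w x y) : AddG e' o i w x y := by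
  obtain ⟨p, q, r, s, hli, hps, hqs, hrs, hz, h1, h2, h3, h4, h5, h6⟩ := h
  obtain ⟨hpq, hpr, hqr⟩ := ne_of_LI3 hli
  have ho := hz o (by simp)
  have hi := hz i (by simp)
  have hw := hz w (by simp)
  have hx := hz x (by simp)
  have hy := hz y (by simp)
  refine ⟨p, q, r, s, ?_, hps, hqs, hrs, hz, ?_, ?_, ?_, ?_, ?_, ?_⟩
  · by_contra hc
    exact ((hcol p q r hpq hpr hqr).1 hc) hli
  · exact (hcol p q w hpq hw.1.symm hw.2.1.symm).2 h1
  · exact (hcol r s w hrs hw.2.2.1.symm hw.2.2.2.symm).2 h2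
  · exact (hcol p r o hpr ho.1.symm ho.2.2.1.symm).2 h3
  · exact (hcol q s i hqs hi.2.1.symm hi.2.2.2.symm).2 h4
  · exact (hcol p s x hps hx.1.symm hx.2.2.2.symm).2 h5
  · exact (hcol q r y hqr hy.2.1.symm hy.2.2.1.symm).2 h6

end transferCfg

/-- the contradiction -/
theorem concl (hQUAD : T_QUAD.{u}) (hFLT : T_FLT.{u})
    (K κ₁ : Type u) [Field K] [IsAlgClosed K] [Field κ₁] [Algebra K κ₁] (τ : Type) [Fintype τ]
    (n : ℕ) (hn : n = 3 ∨ n = 4) (hnK : (n : K) ≠ 0)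
    (W : ValuationSubring (AlgebraicClosure (FractionRing (MvPolynomial τ K))))
    (N : ℕ) (e : Fin (N + 1) → Fin 4 → κ₁)
    (o i w x1 x2 xn y1 y2 yn : Fin (N + 1)) (x : κ₁)
    (e' : Fin (N + 1) → Fin 4 → AlgebraicClosure (FractionRing (MvPolynomial τ K)))
    (θ : κ₁ →+* ResidueField W)
    (hinj : Function.Injective (fun a => e a 1))
    (he'0 : ∀ a, e' a 0 = 1) (he'i : Function.Injective (fun a => e' a 1))
    (hcol : ∀ a b c, a ≠ b → a ≠ c → b ≠ c → (Col e' a b c ↔ Col e a b c))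
    (hgal : ∀ p, (∀ a, a ≠ p → deg e a ≠ deg e p) → ∃ N₀ : ℕ, ∀ N' ≥ N₀, ∀ j,
        e' p j ^ (ringExpChar (FractionRing (MvPolynomial τ K)) ^ N') ∈
          (algebraMap (FractionRing (MvPolynomial τ K))
            (AlgebraicClosure (FractionRing (MvPolynomial τ K)))).range)
    (hres : ∀ a, ∃ h : e' a 1 ∈ W, residue W ⟨e' a 1, h⟩ = θ (e a 1))
    (hK : ∀ k : K, ∃ h : algebraMap (FractionRing (MvPolynomial τ K))
        (AlgebraicClosure (FractionRing (MvPolynomial τ K))) (algebraMap K _ k) ∈ W,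
        residue W ⟨_, h⟩ = θ (algebraMap K κ₁ k))
    (hnd : [o, i, w, x1, x2, xn, y1, y2, yn].Nodup) (c1 : Col e o w i) (c2 : Col e o w x1)
    (c3 : Col e o w x2) (c4 : Col e o w xn) (c5 : Col e o w y1) (c6 : Col e o w y2)
    (c7 : Col e o w yn) (m1 : MulG e o i w x1 x1 x2)
    (m2 : MulG e o i w x2 (if n = 3 then x1 else x2) xn) (m3 : MulG e o i w y1 y1 y2)
    (m4 : MulG e o i w y2 (if n = 3 then y1 else y2) yn) (ad : AddG e o i w xn yn)
    (hx : cr e o i w x1 = x)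
    (hmark : ∀ p ∈ ({o, i, w, x1, y1} : Set (Fin (N + 1))), ∀ a, a ≠ p → deg e a ≠ deg e p) :
    x ∈ (algebraMap K κ₁).range := by
  classical
  simp only [List.nodup_cons, List.mem_cons, List.not_mem_nil, or_false, not_or,
    List.nodup_nil, not_false_eq_true, and_true] at hnd
  obtain ⟨⟨hoi, how, hox1, hox2, hoxn, hoy1, hoy2, hoyn⟩, ⟨hiw, hix1, hix2, hixn, hiy1, hiy2, hiyn⟩,
    ⟨hwx1, hwx2, hwxn, hwy1, hwy2, hwyn⟩, ⟨hx1x2, hx1xn, hx1y1, hx1y2, hx1yn⟩,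
    ⟨hx2xn, hx2y1, hx2y2, hx2yn⟩, ⟨hxny1, hxny2, hxnyn⟩, ⟨hy1y2, hy1yn⟩, hy2yn⟩ := hnd
  have d1 := (hcol o w i how hoi (Ne.symm hiw)).2 c1
  have d2 := (hcol o w x1 how hox1 hwx1).2 c2
  have d3 := (hcol o w x2 how hox2 hwx2).2 c3
  have d4 := (hcol o w xn how hoxn hwxn).2 c4
  have d5 := (hcol o w y1 how hoy1 hwy1).2 c5
  have d6 := (hcol o w y2 how hoy2 hwy2).2 c6
  have d7 := (hcol o w yn how hoyn hwyn).2 c7
  have e1 := MulG_transfer hcol m1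
  have e2 := MulG_transfer hcol m2
  have e3 := MulG_transfer hcol m3
  have e4 := MulG_transfer hcol m4
  have e5 := AddG_transfer hcol ad
  have r1 := (hQUAD _ _ e' o i w x1 x1 he'0 he'i hoi how hiw (Ne.symm hox1) (Ne.symm hwx1)
    (Ne.symm hox1) (Ne.symm hwx1) d1 d2 d2).1 x2 (Ne.symm hox2) (Ne.symm hwx2) d3 e1
  have r3 := (hQUAD _ _ e' o i w y1 y1 he'0 he'i hoi how hiw (Ne.symm hoy1) (Ne.symm hwy1)
    (Ne.symm hoy1) (Ne.symm hwy1) d1 d5 d5).1 y2 (Ne.symm hoy2) (Ne.symm hwy2) d6 e3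
  have r5 := (hQUAD _ _ e' o i w xn yn he'0 he'i hoi how hiw (Ne.symm hoxn) (Ne.symm hwxn)
    (Ne.symm hoyn) (Ne.symm hwyn) d1 d4 d7).2 e5
  have r2 : cr e' o i w xn = cr e' o i w x1 ^ n := by
    rcases hn with rfl | rfl
    · rw [if_pos rfl] at e2
      have := (hQUAD _ _ e' o i w x2 x1 he'0 he'i hoi how hiw (Ne.symm hox2) (Ne.symm hwx2)
        (Ne.symm hox1) (Ne.symm hwx1) d1 d3 d2).1 xn (Ne.symm hoxn) (Ne.symm hwxn) d4 e2
      rw [this, r1]; ring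
    · rw [if_neg (by norm_num)] at e2
      have := (hQUAD _ _ e' o i w x2 x2 he'0 he'i hoi how hiw (Ne.symm hox2) (Ne.symm hwx2)
        (Ne.symm hox2) (Ne.symm hwx2) d1 d3 d3).1 xn (Ne.symm hoxn) (Ne.symm hwxn) d4 e2
      rw [this, r1]; ring
  have r4 : cr e' o i w yn = cr e' o i w y1 ^ n := by
    rcases hn with rfl | rfl
    · rw [if_pos rfl] at e4
      have := (hQUAD _ _ e' o i w y2 y1 he'0 he'i hoi how hiw (Ne.symm hoy2) (Ne.symm hwy2)
        (Ne.symm hoy1) (Ne.symm hwy1) d1 d6 d5).1 yn (Ne.symm hoyn) (Ne.symm hwyn) d7 e4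
      rw [this, r3]; ring
    · rw [if_neg (by norm_num)] at e4
      have := (hQUAD _ _ e' o i w y2 y2 he'0 he'i hoi how hiw (Ne.symm hoy2) (Ne.symm hwy2)
        (Ne.symm hoy2) (Ne.symm hwy2) d1 d6 d6).1 yn (Ne.symm hoyn) (Ne.symm hwyn) d7 e4
      rw [this, r3]; ring
  rw [r2, r4] at r5
  -- Frobenius
  set L := FractionRing (MvPolynomial τ K) with hL
  set q := ringExpChar L with hq
  have : ExpChar L q := ringExpChar.expChar L
  have : ExpChar (AlgebraicClosure L) q := expChar_of_injective_algebraMap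
    (algebraMap L (AlgebraicClosure L)).injective q
  obtain ⟨N1, h1⟩ := hgal o (hmark o (by simp))
  obtain ⟨N2, h2⟩ := hgal i (hmark i (by simp))
  obtain ⟨N3, h3⟩ := hgal w (hmark w (by simp))
  obtain ⟨N4, h4⟩ := hgal x1 (hmark x1 (by simp))
  obtain ⟨N5, h5⟩ := hgal y1 (hmark y1 (by simp))
  set M := N1 + N2 + N3 + N4 + N5 with hM
  have f1 := h1 M (by omega) 1
  have f2 := h2 M (by omega) 1
  have f3 := h3 M (by omega) 1
  have f4 := h4 M (by omega) 1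
  have f5 := h5 M (by omega) 1
  set S := (algebraMap L (AlgebraicClosure L)).fieldRange with hS
  have hfr : ∀ t : AlgebraicClosure L, iterateFrobenius (AlgebraicClosure L) q M t = t ^ q ^ M :=
    fun t => iterateFrobenius_def q M t
  have hcrS : ∀ p, e' p 1 ^ q ^ M ∈ S → cr e' o i w p ^ q ^ M ∈ S := by
    intro p hp
    rw [← hfr]
    unfold cr
    rw [map_div₀, map_mul, map_mul, map_sub, map_sub, map_sub, map_sub]
    simp only [hfr]
    have g1 : e' o 1 ^ q ^ M ∈ S := f1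
    have g2 : e' i 1 ^ q ^ M ∈ S := f2
    have g3 : e' w 1 ^ q ^ M ∈ S := f3
    exact S.div_mem (S.mul_mem (S.sub_mem g3 g2) (S.sub_mem hp g1))
      (S.mul_mem (S.sub_mem g2 g1) (S.sub_mem g3 hp))
  obtain ⟨XL, hXL⟩ := hcrS x1 f4
  obtain ⟨YL, hYL⟩ := hcrS y1 f5
  have hXY : XL ^ n + YL ^ n = 1 := by
    apply (algebraMap L (AlgebraicClosure L)).injective
    rw [map_add, map_pow, map_pow, map_one, hXL, hYL, ← hfr, ← hfr, ← map_pow, ← map_pow,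
      ← map_add, r5, map_one]
  have hn3 : 3 ≤ n := by rcases hn with rfl | rfl <;> norm_num
  obtain ⟨c, hc⟩ := hFLT K τ n hn3 hnK XL YL hXY
  have hqM : 0 < q ^ M := Nat.pow_pos (expChar_pos L q)
  obtain ⟨d, hd⟩ := IsAlgClosed.exists_pow_nat_eq c hqM
  have hcr : cr e' o i w x1 = algebraMap L (AlgebraicClosure L) (algebraMap K L d) := by
    apply (iterateFrobenius (AlgebraicClosure L) q M).injective
    rw [hfr, hfr, ← hXL, ← hc, ← hd, map_pow, map_pow]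
  -- residues
  obtain ⟨go, ho⟩ := hres o
  obtain ⟨gi, hi⟩ := hres i
  obtain ⟨gw, hw⟩ := hres w
  obtain ⟨gx, hx'⟩ := hres x1
  obtain ⟨gd, hd'⟩ := hK d
  have n1 : e' i 1 - e' o 1 ≠ 0 := sub_ne_zero.2 fun h => hoi (he'i h).symm
  have n2 : e' w 1 - e' x1 1 ≠ 0 := sub_ne_zero.2 fun h => hwx1 (he'i h)
  have key : (e' w 1 - e' i 1) * (e' x1 1 - e' o 1) =
      algebraMap L (AlgebraicClosure L) (algebraMap K L d) *
        ((e' i 1 - e' o 1) * (e' w 1 - e' x1 1)) := by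
    rw [← hcr]
    unfold cr
    rw [div_mul_cancel₀ _ (mul_ne_zero n1 n2)]
  have keyW : ((⟨e' w 1, gw⟩ : W) - ⟨e' i 1, gi⟩) * (⟨e' x1 1, gx⟩ - ⟨e' o 1, go⟩) =
      (⟨_, gd⟩ : W) * ((⟨e' i 1, gi⟩ - ⟨e' o 1, go⟩) * (⟨e' w 1, gw⟩ - ⟨e' x1 1, gx⟩)) :=
    Subtype.ext key
  have keyR := congrArg (residue W) keyW
  rw [map_mul, map_mul, map_mul, map_sub, map_sub, map_sub, map_sub, ho, hi, hw, hx', hd',
    ← map_sub, ← map_sub, ← map_sub, ← map_sub, ← map_mul, ← map_mul, ← map_mul] at keyR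
  have keyκ := θ.injective keyR
  have n3 : e i 1 - e o 1 ≠ 0 := sub_ne_zero.2 fun h => hoi (hinj h).symm
  have n4 : e w 1 - e x1 1 ≠ 0 := sub_ne_zero.2 fun h => hwx1 (hinj h)
  refine ⟨d, ?_⟩
  rw [← hx]
  unfold cr
  rw [eq_div_iff (mul_ne_zero n3 n4)]
  exact keyκ.symm

theorem T_AG_of (h1 : T_AG1.{u}) (h2 : T_AG2.{u}) : T_AG.{u} := by
  intro K _ _ κ₁ _ _ m n k r A hA hr
  obtain ⟨S, hS1, hS2, hS3⟩ := h1 K κ₁ m n k r A hA hr
  obtain ⟨Y, hY, hU⟩ := h2 K m n k r S hS1 hS2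
  refine ⟨Y, hY, fun hu => ?_⟩
  obtain ⟨N, A', h3, h4⟩ := hU hu
  exact ⟨N, A', h3, fun f hf => hS3 f (h4 f hf)⟩

theorem final (hAG1 : T_AG1.{u}) (hAG2 : T_AG2.{u}) (hXY : T_XY.{u}) (hCONF : T_CONF.{u})
    (hDIM : T_DIM.{u}) (hDENSE : T_DENSE.{u}) (hVAL : T_VAL.{u}) (hMAPFR : T_MAPFR.{u})
    (hHYP : T_HYP.{u}) (hBC : T_BC.{u}) (hLCX : T_LCX.{u})
    (hSTR1 : T_STR1.{u}) (hSTR2 : T_STR2.{u}) (hSTR3 : T_STR3.{u}) (hGAL : T_GAL.{u})
    (hQUAD : T_QUAD.{u}) (hFLT : T_FLT.{u}) : FinalStatement.{u} := by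
  intro K _ _
  classical
  obtain ⟨n, hn, hnK, κ₁, _, _, x, y, hxy, hx, hadj, hnd⟩ := hXY K
  have : Infinite κ₁ := Infinite.of_injective _ (algebraMap K κ₁).injective
  obtain ⟨N, e, o, i, w, x1, x2, xn, y1, y2, yn, he0, hinj, hGP, hnd', c1, c2, c3, c4, c5, c6, c7,
    m1, m2, m3, m4, ad, hcx, hcy, hmark⟩ := hCONF κ₁ n hn x y hxy hnd
  have hx0 : x ≠ 0 := by
    intro h
    exact hx ⟨0, by rw [map_zero, h]⟩
  have hy0 : y ≠ 0 := by
    intro h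
    simp only [h, List.nodup_cons, List.mem_cons, true_or, or_true, not_true,
      false_and] at hnd
  obtain ⟨m, n', r, b2, b3, h1r, hrm, hrn, hLI, hrank, hgen⟩ :=
    hDIM K κ₁ N e hGP he0 hinj x y hx0 hy0 hadj
  have hbd : ∀ z : Fin (N + 1) → K,
      (∑ l, algebraMap K κ₁ (z l) • LinearMap.toMatrix b2 b3 (M2 e l)).rank < r :=
    hDENSE K κ₁ (Fin (N + 1)) (Fin m) (Fin n') _ r (fun z => by have := hrank z; omega)
  obtain ⟨Y, hY, hU⟩ := T_AG_of hAG1 hAG2 K κ₁ m n' N r _ hLI hbd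
  refine ⟨m, n', r, N, h1r, hrm, hrn, Y, hY, fun hYU => hx ?_⟩
  obtain ⟨N', A', hA'rk, hA'sp⟩ := hU hYU
  obtain ⟨W, hWK, hWa, γ, hγK, hγa⟩ := hVAL K κ₁ (FractionRing (MvPolynomial (Fin N') K))
    (Fin (N + 1) × Fin m × Fin n') (fun s => LinearMap.toMatrix b2 b3 (M2 e s.1) s.2.1 s.2.2)
    (fun s => A' s.1 s.2.1 s.2.2) hA'sp hgen
  obtain ⟨e', θ, he'0, he'i, hcol, hgal, hres, hKr⟩ := core hMAPFR hHYP hBC hLCX hSTR1 hSTR2 hSTR3
    hGAL K κ₁ (FractionRing (MvPolynomial (Fin N') K)) N m n' r e hGP he0 hinj b2 b3 hrank A'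
    hA'rk W hWK (fun i s t => hWa (i, s, t)) γ hγK (fun i s t => hγa (i, s, t))
  exact concl hQUAD hFLT K κ₁ (Fin N') n hn hnK W N e o i w x1 x2 xn y1 y2 yn x e' θ hinj he'0
    he'i hcol hgal hres hKr hnd' c1 c2 c3 c4 c5 c6 c7 m1 m2 m3 m4 ad hcx hmark

end Pool.Agent.H67.FS
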